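import Pool.Agent.H14.TOW.TargetsM

/-!
# Zariski dense orbits for towers of fibrations: the orbits in the model and in affine space
-/

set_option autoImplicit false

namespace Pool.Agent.H7.TOW

open MvPolynomial
open Pool.Agent.H12.ZD (pmap)
open Pool.Agent.H18.HIT Pool.Agent.H18.HX Pool.Agent.H18.VP Pool.Agent.H18.VZ Pool.Agent.H14.TOW

section hat

variable {k : Type} [Field k] {L N : ℕ}

/-- substitution of multiples -/
private theorem aeval_smul_hom {S : Type} [CommRing S] [Algebra k S] {q : Po L k} {t : ℕ}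
    (hq : q.IsHomogeneous t) (h : S) (G : Fin L → S) :
    aeval (fun i => h * G i) q = h ^ t * aeval G q := by
  rw [aeval_def, aeval_def, eval₂_eq', eval₂_eq', Finset.mul_sum]
  apply Finset.sum_congr rfl
  intro m hm
  have h1 : ∏ i, (h * G i) ^ m i = h ^ t * ∏ i, G i ^ m i := by
    rw [Finset.prod_congr rfl fun i _ => mul_pow h (G i) (m i), Finset.prod_mul_distrib,
      Finset.prod_pow_eq_pow_sum]
    congr 2
    have h2 := hq (mem_support_iff.mp hm)
    rw [Finsupp.weight_apply, Finsupp.sum_fintype _ _ (fun i => by simp)] at h2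
    simpa using h2
  rw [h1]
  ring

/-- homogenisation -/
private noncomputable def hat (B : Po N k) (A : Fin L → Po N k) (D : ℕ) (c : Po L k) : Po N k :=
  ∑ t ∈ Finset.range (D + 1), B ^ (D - t) * aeval A (homogeneousComponent t c)

private theorem hat_hom {B : Po N k} {A : Fin L → Po N k} {m : ℕ} (hB : B.IsHomogeneous m)
    (hA : ∀ l, (A l).IsHomogeneous m) (D : ℕ) (c : Po L k) :
    (hat B A D c).IsHomogeneous (m * D) := by
  unfold hat
  apply IsHomogeneous.sum
  intro t ht
  rw [Finset.mem_range] at ht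
  have h1 : (aeval A (homogeneousComponent t c)).IsHomogeneous (m * t) :=
    (homogeneousComponent_isHomogeneous t c).aeval A hA
  have h2 := (hB.pow (D - t)).mul h1
  have h3 : m * (D - t) + m * t = m * D := by
    rw [← mul_add]
    congr 1
    omega
  rw [h3] at h2
  exact h2

private theorem hat_eval {S : Type} [CommRing S] [Algebra k S] (φ : Po N k →ₐ[k] S)
    {B : Po N k} {A : Fin L → Po N k} {z : Fin L → S} (hz : ∀ l, z l * φ B = φ (A l))
    {c : Po L k} {D : ℕ} (hD : c.totalDegree ≤ D) :
    φ (hat B A D c) = φ B ^ D * aeval z c := by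
  unfold hat
  rw [map_sum]
  have h1 : ∀ t ∈ Finset.range (D + 1), φ (B ^ (D - t) * aeval A (homogeneousComponent t c)) =
      φ B ^ D * aeval z (homogeneousComponent t c) := by
    intro t ht
    rw [Finset.mem_range] at ht
    rw [map_mul, map_pow, comp_aeval_apply]
    have h2 : (fun i => φ (A i)) = fun i => φ B * z i := by
      funext i
      rw [← hz, mul_comm]
    rw [h2, aeval_smul_hom (homogeneousComponent_isHomogeneous t c), ← mul_assoc, ← pow_add]
    congr 2
    omega
  rw [Finset.sum_congr rfl h1, ← Finset.mul_sum, ← map_sum]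
  congr 2
  have h3 : ∑ t ∈ Finset.range (D + 1), homogeneousComponent t c =
      ∑ t ∈ Finset.range (c.totalDegree + 1), homogeneousComponent t c := by
    symm
    apply Finset.sum_subset
    · intro t ht
      rw [Finset.mem_range] at ht ⊢
      omega
    · intro t _ ht
      rw [Finset.mem_range] at ht
      exact homogeneousComponent_eq_zero _ _ (by omega)
  rw [h3, sum_homogeneousComponent]

private theorem eval_pmap (F : Tup N k) (p : Fin N → k) (c : Po N k) :
    eval (pmap F p) c = eval p (aeval F c) := by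
  have h : eval p (aeval F c) = aeval p (aeval F c) := by
    rw [aeval_eq_eval]
  rw [h, comp_aeval_apply, aeval_eq_eval]
  congr 2

end hat

theorem pf_AFP (hS : T_MSL) : T_AFP := by
  classical
  intro k K _ _ _ σ L x b n r d P F y htop hb hM
  -- common denominators
  choose mm A1 B1 hA1 hB1 hne1 hx1 using fun l => hM.gen (x l)
  let m := ∑ l, mm l
  let B0 : Po (n + 1 + 1) k := ∏ l, B1 l
  let A : Fin L → Po (n + 1 + 1) k := fun l => A1 l * ∏ i ∈ Finset.univ.erase l, B1 i
  have hB0 : B0.IsHomogeneous m := IsHomogeneous.prod _ _ _ fun l _ => hB1 l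
  have hA : ∀ l, (A l).IsHomogeneous m := by
    intro l
    have h1 : (∏ i ∈ Finset.univ.erase l, B1 i).IsHomogeneous (∑ i ∈ Finset.univ.erase l, mm i) :=
      IsHomogeneous.prod _ _ _ fun i _ => hB1 i
    have h2 := (hA1 l).mul h1
    rw [Finset.add_sum_erase Finset.univ mm (Finset.mem_univ l)] at h2
    exact h2
  have hne : aeval y B0 ≠ 0 := by
    simp only [B0, map_prod]
    exact Finset.prod_ne_zero_iff.2 fun l _ => hne1 l
  have hx : ∀ l, x l * aeval y B0 = aeval y (A l) := by
    intro l
    simp only [B0, A, map_prod, map_mul]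
    rw [← Finset.mul_prod_erase Finset.univ (fun i => aeval y (B1 i)) (Finset.mem_univ l),
      ← mul_assoc, hx1]
  -- the map
  have hpq : ∀ l, ∃ p q : Po L k, aeval x q ≠ 0 ∧ σ (x l) * aeval x q = aeval x p := by
    intro l
    have h1 : σ (x l) ∈ IntermediateField.adjoin k (Set.range x) := by
      rw [htop]
      exact IntermediateField.mem_top
    obtain ⟨r, s, hrs⟩ := (IntermediateField.mem_adjoin_range_iff k x _).1 h1
    by_cases hs : aeval x s = 0
    · refine ⟨0, 1, ?_, ?_⟩
      · rw [map_one]
        exact one_ne_zero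
      · rw [hrs, hs, div_zero, zero_mul, map_zero]
    · refine ⟨r, s, hs, ?_⟩
      rw [hrs, div_mul_cancel₀ _ hs]
  choose p q hq hσ using hpq
  let D : Fin L → ℕ := fun l => max (p l).totalDegree (q l).totalDegree
  let hb' := hat B0 A b.totalDegree b
  let qh : Fin L → Po (n + 1 + 1) k := fun l => hat B0 A (D l) (q l)
  let ph : Fin L → Po (n + 1 + 1) k := fun l => hat B0 A (D l) (p l)
  have hqh : ∀ l, aeval y (qh l) = aeval y B0 ^ D l * aeval x (q l) := fun l =>
    hat_eval (aeval y) hx (le_max_right _ _)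
  have hph : ∀ l, aeval y (ph l) = aeval y B0 ^ D l * aeval x (p l) := fun l =>
    hat_eval (aeval y) hx (le_max_left _ _)
  let b' : Po (n + 1 + 1) k := X (Fin.succ 0) * (B0 * (hb' * ∏ l, qh l))
  have hb'h : ∃ t, b'.IsHomogeneous t := by
    refine ⟨_, (isHomogeneous_X k (Fin.succ 0)).mul (hB0.mul
      ((hat_hom hB0 hA b.totalDegree b).mul (IsHomogeneous.prod _ _ (fun l => m * D l)
        fun l _ => hat_hom hB0 hA (D l) (q l))))⟩
  refine ⟨b', hb'h, ?_, dvd_mul_right _ _, ?_⟩
  · obtain ⟨t, ht⟩ := hb'h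
    rw [← hM.ker t b' ht]
    simp only [b', map_mul, map_prod, aeval_X]
    refine mul_ne_zero ?_ (mul_ne_zero hne (mul_ne_zero ?_ (Finset.prod_ne_zero_iff.2
      fun l _ => ?_)))
    · rw [hM.y1]
      exact one_ne_zero
    · simp only [hb']
      rw [hat_eval (aeval y) hx (le_refl _)]
      exact mul_ne_zero (pow_ne_zero _ hne) hb
    · rw [hqh]
      exact mul_ne_zero (pow_ne_zero _ hne) (hq l)
  · intro pt hP hpt
    let pj : ℕ → Fin (n + 1 + 1) → k := fun j => (pmap F)^[j] pt
    have hpj : ∀ j, pj (j + 1) = pmap F (pj j) := fun j => Function.iterate_succ_apply' _ _ _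
    have hPj : ∀ j, eval (pj j) P = 0 := by
      intro j
      induction j with
      | zero => exact hP
      | succ j ih =>
        rw [hpj, eval_pmap]
        have h1 : aeval F P ∈ Ideal.span {P} :=
          (hS k K σ n r d P F y hM).1.inv P (Ideal.mem_span_singleton_self P)
        obtain ⟨e, he⟩ := Ideal.mem_span_singleton.1 h1
        rw [he, map_mul, ih, zero_mul]
    have hdvd : ∀ (j : ℕ) (c : Po (n + 1 + 1) k), P ∣ c → eval (pj j) c = 0 := by
      rintro j c ⟨e, rfl⟩
      rw [map_mul, hPj, zero_mul]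
    have hfac : ∀ j, eval (pj j) B0 ≠ 0 ∧ eval (pj j) hb' ≠ 0 ∧ ∀ l, eval (pj j) (qh l) ≠ 0 := by
      intro j
      have h1 : eval (pj j) b' ≠ 0 := hpt j
      simp only [b', map_mul, map_prod] at h1
      refine ⟨fun h => h1 (by rw [h]; ring), fun h => h1 (by rw [h]; ring), fun l h => h1 ?_⟩
      rw [Finset.prod_eq_zero (Finset.mem_univ l) h]
      ring
    let z : ℕ → Fin L → k := fun j l => eval (pj j) (A l) / eval (pj j) B0
    have hev : ∀ (j : ℕ) (c : Po (n + 1 + 1) k), (aeval (pj j) : Po (n + 1 + 1) k →ₐ[k] k) c =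
        eval (pj j) c := by
      intro j c
      rw [aeval_eq_eval]
    have hz : ∀ j l, z j l * (aeval (pj j) : Po (n + 1 + 1) k →ₐ[k] k) B0 = aeval (pj j) (A l) := by
      intro j l
      rw [hev, hev]
      exact div_mul_cancel₀ _ (hfac j).1
    have hhat : ∀ (j : ℕ) (c : Po L k) (D : ℕ), c.totalDegree ≤ D →
        eval (pj j) (hat B0 A D c) = eval (pj j) B0 ^ D * eval (z j) c := by
      intro j c D hD
      have h1 := hat_eval (aeval (pj j) : Po (n + 1 + 1) k →ₐ[k] k) (hz j) hD
      rw [hev, hev, aeval_eq_eval] at h1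
      exact h1
    refine ⟨z, ?_, ?_, ?_, ?_⟩
    · intro j c hc
      have h1 : aeval y (hat B0 A c.totalDegree c) = 0 := by
        rw [hat_eval (aeval y) hx (le_refl _), hc, mul_zero]
      have h2 := hdvd j _ ((hM.ker _ _ (hat_hom hB0 hA _ c)).1 h1)
      rw [hhat j c _ (le_refl _)] at h2
      exact (mul_eq_zero.1 h2).resolve_left (pow_ne_zero _ (hfac j).1)
    · intro j h0
      apply (hfac j).2.1
      simp only [hb']
      rw [hhat j b _ (le_refl _), h0, mul_zero]
    · intro j l
      have hqz : eval (z j) (q l) ≠ 0 := by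
        intro h0
        apply (hfac j).2.2 l
        simp only [qh]
        rw [hhat j (q l) _ (le_max_right _ _), h0, mul_zero]
      refine ⟨p l, q l, hqz, hσ l, ?_⟩
      have hyF : ∀ c : Po (n + 1 + 1) k, c.IsHomogeneous m →
          aeval y (aeval F c) = aeval y (F (Fin.succ 0)) ^ m * σ (aeval y c) := by
        intro c hc
        have h1 : aeval y (aeval F c) = aeval (fun i => aeval y (F i)) c := comp_aeval_apply _ _ _
        have h2 : (fun i => aeval y (F i)) = fun i => aeval y (F (Fin.succ 0)) * σ (y i) := by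
          funext i
          exact hM.map i
        rw [h1, h2, aeval_smul_hom hc, comp_aeval_apply]
      let Q : Po (n + 1 + 1) k := aeval F (A l) * qh l - aeval F B0 * ph l
      have hQh : Q.IsHomogeneous (d * m + m * D l) := by
        apply IsHomogeneous.sub
        · exact ((hA l).aeval F hM.hom).mul (hat_hom hB0 hA (D l) (q l))
        · exact (hB0.aeval F hM.hom).mul (hat_hom hB0 hA (D l) (p l))
      have hQy : aeval y Q = 0 := by
        simp only [Q, map_sub, map_mul]
        rw [hyF _ (hA l), hyF _ hB0, hqh, hph, ← hx l, map_mul, ← hσ l]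
        ring
      have hQ0 := hdvd j Q ((hM.ker _ _ hQh).1 hQy)
      simp only [Q, map_sub, map_mul] at hQ0
      rw [← eval_pmap, ← eval_pmap, ← hpj] at hQ0
      have e1 : eval (pj j) (qh l) = eval (pj j) B0 ^ D l * eval (z j) (q l) :=
        hhat j (q l) (D l) (le_max_right _ _)
      have e2 : eval (pj j) (ph l) = eval (pj j) B0 ^ D l * eval (z j) (p l) :=
        hhat j (p l) (D l) (le_max_left _ _)
      have e3 : z (j + 1) l * eval (pj (j + 1)) B0 = eval (pj (j + 1)) (A l) :=
        div_mul_cancel₀ _ (hfac (j + 1)).1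
      rw [e1, e2, ← e3] at hQ0
      have h5 : (eval (pj (j + 1)) B0 * eval (pj j) B0 ^ D l) *
          (z (j + 1) l * eval (z j) (q l) - eval (z j) (p l)) = 0 := by
        rw [← hQ0]
        ring
      exact sub_eq_zero.1 ((mul_eq_zero.1 h5).resolve_left
        (mul_ne_zero (hfac (j + 1)).1 (pow_ne_zero _ (hfac j).1)))
    · intro c hc
      refine ⟨_, hat B0 A c.totalDegree c, hat_hom hB0 hA _ c, ?_, ?_⟩
      · intro j
        have h1 := hhat j c _ (le_refl c.totalDegree)
        rw [hc j, mul_zero] at h1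
        exact h1
      · intro h
        have h1 := (hM.ker _ _ (hat_hom hB0 hA c.totalDegree c)).2 h
        rw [hat_eval (aeval y) hx (le_refl _)] at h1
        exact (mul_eq_zero.1 h1).resolve_left (pow_ne_zero _ hne)

end Pool.Agent.H7.TOW
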